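import Pool.Agent.H31.XCE.Targets

/-! Row K1L of the board xce_modules: logarithmic averages. -/

set_option autoImplicit false

namespace Pool.Agent.H80.XCE

open Finset Pool.Agent.H31.XCE

theorem pf_K1L (hK : T_K1) (hL : T_LOG) : T_K1L := by
  intro ε D J hε
  obtain ⟨C, hC1, hC⟩ := hK ε D J hε
  refine ⟨max C 10, hC1.trans (le_max_left _ _), ?_⟩
  intro S M L P X Q v hH hv hX
  have hCm : C ≤ max C 10 := le_max_left _ _
  have hP10 : (10 : ℝ) ≤ P := (le_max_right _ _).trans hH.hP
  have hlog : 0 < Real.log P := Real.log_pos (by linarith)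
  have hH' : Hyp C D S M L P Q :=
    { hP := hCm.trans hH.hP
      hQ := hH.hQ
      hS := (mul_le_mul_of_nonneg_right hCm (by positivity)).trans hH.hS
      hL := hH.hL
      hM := hH.hM
      hMD := hH.hMD
      hLL := (mul_le_mul_of_nonneg_right hCm (by positivity)).trans hH.hLL }
  have hL1 : 1 ≤ L := by
    rcases Nat.eq_zero_or_pos L with h0 | h0
    · exfalso
      have h1 := hH'.hLL
      rw [h0, Nat.cast_zero, Real.log_zero, mul_zero] at h1
      have h2 : 0 < C * Real.log P ^ 2 := by
        have : 0 < C := by linarith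
        positivity
      linarith
    · exact h0
  have hδ : (0 : ℝ) ≤ 1 / (P : ℝ) ^ D := by positivity
  have h := hL (fun n => Bad ε J Q S M v n) L X (1 / (P : ℝ) ^ D) hL1 hX hδ (fun Y => by
    have h1 := hC S M L P Y Q v hH' hv
    rw [one_div_mul_eq_div]
    exact h1)
  rw [one_div_mul_eq_div] at h
  exact h

end Pool.Agent.H80.XCE
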